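import Mathlib
import Pool.Agent.Helper82.PN.GoalsS

set_option autoImplicit false

open Set MeasureTheory Topology Filter
open Pool.Agent.Helper47.AQ
open Pool.Agent.Helper82.PN.St (Cls2)

namespace Pool.Agent.Helper14.PN

open Pool.Agent.Helper82.PN

/-- the unit ball -/
def BB (m : ℕ) : Set (Fin m → ℝ) := {y | ∑ j, y j ^ 2 ≤ 1}

theorem bb_body (m : ℕ) : IsUncond (BB m) := by
  have hcont : Continuous (fun y : Fin m → ℝ => ∑ j, y j ^ 2) :=
    continuous_finsetSum _ (fun j _ => (continuous_apply j).pow 2)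
  refine ⟨⟨?_, ?_, ?_⟩, ?_⟩
  · intro x hx y hy p q hp hq hpq
    have hx' : ∑ j, x j ^ 2 ≤ 1 := hx
    have hy' : ∑ j, y j ^ 2 ≤ 1 := hy
    show ∑ j, (p • x + q • y) j ^ 2 ≤ 1
    have h1 : ∀ j, (p • x + q • y) j ^ 2 ≤ p * x j ^ 2 + q * y j ^ 2 := by
      intro j
      have hq' : q = 1 - p := by linarith
      simp only [Pi.add_apply, Pi.smul_apply, smul_eq_mul]
      subst hq'
      nlinarith [mul_nonneg (mul_nonneg hp hq) (sq_nonneg (x j - y j))]
    calc ∑ j, (p • x + q • y) j ^ 2 ≤ ∑ j, (p * x j ^ 2 + q * y j ^ 2) :=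
          Finset.sum_le_sum (fun j _ => h1 j)
      _ = p * ∑ j, x j ^ 2 + q * ∑ j, y j ^ 2 := by
          rw [Finset.sum_add_distrib, Finset.mul_sum, Finset.mul_sum]
      _ ≤ p * 1 + q * 1 := add_le_add (mul_le_mul_of_nonneg_left hx' hp)
          (mul_le_mul_of_nonneg_left hy' hq)
      _ = 1 := by rw [mul_one, mul_one, hpq]
  · apply IsCompact.of_isClosed_subset (isCompact_closedBall (0 : Fin m → ℝ) 1)
    · exact isClosed_le hcont continuous_const
    · intro y hy
      have hy' : ∑ j, y j ^ 2 ≤ 1 := hy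
      rw [mem_closedBall_zero_iff, pi_norm_le_iff_of_nonneg zero_le_one]
      intro j
      have h1 : y j ^ 2 ≤ 1 :=
        (Finset.single_le_sum (f := fun j => y j ^ 2) (fun i _ => sq_nonneg _)
          (Finset.mem_univ j)).trans hy'
      rw [Real.norm_eq_abs]
      exact (sq_le_one_iff_abs_le_one _).1 h1
  · have ho : IsOpen {y : Fin m → ℝ | ∑ j, y j ^ 2 < 1} := isOpen_lt hcont continuous_const
    refine ⟨0, ?_⟩
    rw [mem_interior]
    refine ⟨_, fun y hy => ?_, ho, ?_⟩
    · exact le_of_lt (show ∑ j, y j ^ 2 < 1 from hy)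
    · simp
  · intro x hx y hxy
    have hx' : ∑ j, x j ^ 2 ≤ 1 := hx
    show ∑ j, y j ^ 2 ≤ 1
    have : ∑ j, y j ^ 2 = ∑ j, x j ^ 2 := by
      apply Finset.sum_congr rfl
      intro j _
      rw [← sq_abs (y j), hxy j, sq_abs]
    rw [this]; exact hx'

/-- the point of height `h` and distance `r` from the axis -/
noncomputable def qq {k : ℕ} (i₀ : Fin (k + 4)) (h r : ℝ) : Fin (k + 4) → ℝ :=
  i₀.insertNth h (fun j : Fin (k + 3) => if j = 0 then r else 0)

theorem qq_i {k : ℕ} (i₀ : Fin (k + 4)) (h r : ℝ) : qq i₀ h r i₀ = h := by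
  simp [qq]

theorem qq_s {k : ℕ} (i₀ : Fin (k + 4)) (h r : ℝ) (j : Fin (k + 3)) :
    qq i₀ h r (i₀.succAbove j) = if j = 0 then r else 0 := by
  simp [qq]

theorem qq_sum {k : ℕ} (i₀ : Fin (k + 4)) (h r : ℝ) : ∑ i, qq i₀ h r i ^ 2 = h ^ 2 + r ^ 2 := by
  rw [Fin.sum_univ_succAbove _ i₀, qq_i]
  congr 1
  simp only [qq_s]
  rw [Finset.sum_eq_single 0]
  · simp
  · intro j _ hj; simp [hj]
  · intro h; exact absurd (Finset.mem_univ _) h

theorem qq_comb {k : ℕ} (i₀ : Fin (k + 4)) (h r h' r' p q : ℝ) :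
    qq i₀ (p * h + q * h') (p * r + q * r') = p • qq i₀ h r + q • qq i₀ h' r' := by
  funext i
  refine Fin.succAboveCases i₀ ?_ (fun j => ?_) i
  · simp only [Pi.add_apply, Pi.smul_apply, smul_eq_mul, qq_i]
  · simp only [Pi.add_apply, Pi.smul_apply, smul_eq_mul, qq_s]
    split_ifs <;> simp

theorem qq_cont {k : ℕ} (i₀ : Fin (k + 4)) {X : Type*} [TopologicalSpace X] {f g : X → ℝ}
    (hf : Continuous f) (hg : Continuous g) : Continuous (fun x => qq i₀ (f x) (g x)) := by
  apply continuous_pi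
  intro i
  refine Fin.succAboveCases i₀ ?_ (fun j => ?_) i
  · simp only [qq_i]; exact hf
  · simp only [qq_s]
    split_ifs
    · exact hg
    · exact continuous_const

theorem gREVS : REVS := by
  intro n i₀ K hK hrot
  by_cases hn : n ≤ 3
  · exact Cls2.small (by simpa using hn) hK
  obtain ⟨k, rfl⟩ : ∃ k, n = k + 4 := ⟨n - 4, by omega⟩
  clear hn
  -- the range of heights
  have hne : K.Nonempty := hK.int.mono interior_subset
  have hev : Continuous (fun u : Fin (k + 4) → ℝ => u i₀) := continuous_apply i₀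
  obtain ⟨u0, hu0, hmin⟩ := hK.comp.exists_isMinOn hne hev.continuousOn
  obtain ⟨u1, hu1, hmax⟩ := hK.comp.exists_isMaxOn hne hev.continuousOn
  set a : ℝ := u0 i₀ with ha
  set b : ℝ := u1 i₀ with hb
  have hKa : ∀ u ∈ K, a ≤ u i₀ := fun u hu => hmin hu
  have hKb : ∀ u ∈ K, u i₀ ≤ b := fun u hu => hmax hu
  -- interior point
  obtain ⟨z, hz⟩ := hK.int
  obtain ⟨ε, hε, hball⟩ := Metric.isOpen_iff.1 isOpen_interior z hz
  have hmove : ∀ (i : Fin (k + 4)) (c : ℝ), |c| < ε → z + Pi.single i c ∈ K := by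
    intro i c hc
    apply interior_subset
    apply hball
    rw [Metric.mem_ball, dist_eq_norm, add_sub_cancel_left, Pi.norm_single, Real.norm_eq_abs]
    exact hc
  have hab : a < b := by
    have h1 := hKb _ (hmove i₀ (ε / 2) (by rw [abs_of_pos (half_pos hε)]; exact half_lt_self hε))
    have h2 := hKa _ (hmove i₀ 0 (by rw [abs_zero]; exact hε))
    simp only [Pi.add_apply, Pi.single_eq_same] at h1 h2
    linarith
  have hd : 0 < b - a := sub_pos.2 hab
  set H : ℝ → ℝ := fun t => a + t * (b - a) with hH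
  have hHc : Continuous H := continuous_const.add (continuous_id.mul continuous_const)
  -- sections
  set S : ℝ → Set ℝ := fun t => {r | qq i₀ (H t) r ∈ K} with hS
  have hSclosed : ∀ t, IsClosed (S t) := fun t =>
    hK.comp.isClosed.preimage (qq_cont i₀ continuous_const continuous_id)
  obtain ⟨M, hM⟩ := hK.comp.isBounded.exists_norm_le
  have hSb : ∀ t, ∀ r ∈ S t, |r| ≤ M := by
    intro t r hr
    have h1 := hM _ hr
    have h2 := (norm_le_pi_norm (qq i₀ (H t) r) (i₀.succAbove 0)).trans h1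
    rw [qq_s, if_pos rfl, Real.norm_eq_abs] at h2
    exact h2
  have hScomp : ∀ t, IsCompact (S t) := by
    intro t
    apply IsCompact.of_isClosed_subset (isCompact_Icc (a := -M) (b := M)) (hSclosed t)
    intro r hr
    exact abs_le.1 (hSb t r hr)
  -- points of K give points of the profile
  have F5 : ∀ u ∈ K, qq i₀ (u i₀) (√(∑ j, u (i₀.succAbove j) ^ 2)) ∈ K := by
    intro u hu
    apply hrot u hu
    · rw [qq_i]
    · rw [qq_sum, Real.sq_sqrt (Finset.sum_nonneg (fun j _ => sq_nonneg _)),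
        Fin.sum_univ_succAbove _ i₀]
  have hsec : ∀ t ∈ Icc (0:ℝ) 1, ∃ u ∈ K, u i₀ = H t := by
    intro t ht
    refine ⟨(1 - t) • u0 + t • u1, hK.conv hu0 hu1 (by linarith [ht.2]) ht.1 (by ring), ?_⟩
    simp only [Pi.add_apply, Pi.smul_apply, smul_eq_mul, hH]
    rw [← ha, ← hb]
    ring
  have hS0 : ∀ t ∈ Icc (0:ℝ) 1, (0:ℝ) ∈ S t := by
    intro t ht
    obtain ⟨u, hu, hut⟩ := hsec t ht
    show qq i₀ (H t) 0 ∈ K
    apply hrot u hu
    · rw [qq_i, hut]
    · rw [qq_sum, Fin.sum_univ_succAbove _ i₀, hut]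
      have : 0 ≤ ∑ j, u (i₀.succAbove j) ^ 2 := Finset.sum_nonneg (fun j _ => sq_nonneg _)
      linarith
  set f : ℝ → ℝ := fun t => sSup (S t) with hf
  have F1 : ∀ t ∈ Icc (0:ℝ) 1, qq i₀ (H t) (f t) ∈ K := by
    intro t ht
    exact (hScomp t).sSup_mem ⟨0, hS0 t ht⟩
  have F2 : ∀ t r, qq i₀ (H t) r ∈ K → r ≤ f t := by
    intro t r hr
    exact le_csSup (hScomp t).bddAbove hr
  have F3 : ∀ t ∈ Icc (0:ℝ) 1, 0 ≤ f t := fun t ht => F2 t 0 (hS0 t ht)
  have F4 : ∀ t ∈ Icc (0:ℝ) 1, ∀ r, 0 ≤ r → r ≤ f t → qq i₀ (H t) r ∈ K := by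
    intro t ht r hr0 hr
    apply hrot _ (F1 t ht)
    · rw [qq_i, qq_i]
    · rw [qq_sum, qq_sum]
      have := pow_le_pow_left₀ hr0 hr 2
      linarith
  have hconc : ∀ x ∈ Icc (0:ℝ) 1, ∀ y ∈ Icc (0:ℝ) 1, ∀ p q : ℝ, 0 ≤ p → 0 ≤ q → p + q = 1 →
      p * f x + q * f y ≤ f (p * x + q * y) := by
    intro x hx y hy p q hp hq hpq
    apply F2
    have h1 := hK.conv (F1 x hx) (F1 y hy) hp hq hpq
    rw [← qq_comb] at h1
    have h2 : p * H x + q * H y = H (p * x + q * y) := by
      simp only [hH]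
      have hq' : q = 1 - p := by linarith
      subst hq'
      ring
    rw [h2] at h1
    exact h1
  have hcont : ContinuousOn f (Icc 0 1) := by
    intro t ht
    rw [ContinuousWithinAt, tendsto_order]
    constructor
    · intro c hc
      have hA : ∀ᶠ s in 𝓝[Icc 0 1] t, s ≤ t → c < f s := by
        rcases eq_or_lt_of_le ht.1 with h0 | h0
        · filter_upwards [self_mem_nhdsWithin] with s hs hst
          have : s = t := le_antisymm hst (by rw [← h0]; exact hs.1)
          rw [this]; exact hc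
        · have hl : Tendsto (fun s : ℝ => s / t * f t) (𝓝[Icc 0 1] t) (𝓝 (t / t * f t)) :=
            (((continuous_id.div_const t).mul continuous_const).tendsto t).mono_left
              nhdsWithin_le_nhds
          rw [div_self h0.ne', one_mul] at hl
          filter_upwards [hl.eventually_const_lt hc, self_mem_nhdsWithin] with s hs1 hs hst
          have h2 := hconc 0 ⟨le_rfl, zero_le_one⟩ t ht (1 - s / t) (s / t)
            (sub_nonneg.2 ((div_le_one h0).2 hst)) (div_nonneg hs.1 h0.le) (by ring)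
          have h3 : (1 - s / t) * 0 + s / t * t = s := by
            rw [mul_zero, zero_add, div_mul_cancel₀ _ h0.ne']
          rw [h3] at h2
          have h4 : 0 ≤ (1 - s / t) * f 0 :=
            mul_nonneg (sub_nonneg.2 ((div_le_one h0).2 hst)) (F3 0 ⟨le_rfl, zero_le_one⟩)
          linarith
      have hB : ∀ᶠ s in 𝓝[Icc 0 1] t, t ≤ s → c < f s := by
        rcases eq_or_lt_of_le ht.2 with h0 | h0
        · filter_upwards [self_mem_nhdsWithin] with s hs hst
          have : s = t := le_antisymm (by rw [h0]; exact hs.2) hst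
          rw [this]; exact hc
        · have h0' : 0 < 1 - t := sub_pos.2 h0
          have hl : Tendsto (fun s : ℝ => (1 - s) / (1 - t) * f t) (𝓝[Icc 0 1] t)
              (𝓝 ((1 - t) / (1 - t) * f t)) :=
            ((((continuous_const.sub continuous_id).div_const (1 - t)).mul
              continuous_const).tendsto t).mono_left nhdsWithin_le_nhds
          rw [div_self h0'.ne', one_mul] at hl
          filter_upwards [hl.eventually_const_lt hc, self_mem_nhdsWithin] with s hs1 hs hst
          have hle : (1 - s) / (1 - t) ≤ 1 := (div_le_one h0').2 (by linarith)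
          have h2 := hconc 1 ⟨zero_le_one, le_rfl⟩ t ht (1 - (1 - s) / (1 - t))
            ((1 - s) / (1 - t)) (sub_nonneg.2 hle) (div_nonneg (by linarith [hs.2]) h0'.le)
            (by ring)
          have h3 : (1 - (1 - s) / (1 - t)) * 1 + (1 - s) / (1 - t) * t = s := by
            field_simp
            ring
          rw [h3] at h2
          have h4 : 0 ≤ (1 - (1 - s) / (1 - t)) * f 1 :=
            mul_nonneg (sub_nonneg.2 hle) (F3 1 ⟨zero_le_one, le_rfl⟩)
          linarith
      filter_upwards [hA, hB] with s h1 h2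
      rcases le_total s t with h | h
      · exact h1 h
      · exact h2 h
    · intro c hc
      have hc0 : 0 ≤ c := (F3 t ht).trans hc.le
      have ho : IsOpen {s : ℝ | qq i₀ (H s) c ∉ K} :=
        (hK.comp.isClosed.preimage (qq_cont i₀ hHc continuous_const)).isOpen_compl
      have hmem : t ∈ {s : ℝ | qq i₀ (H s) c ∉ K} := by
        intro h
        exact absurd (F2 t c h) (not_le.2 hc)
      filter_upwards [mem_nhdsWithin_of_mem_nhds (ho.mem_nhds hmem), self_mem_nhdsWithin]
        with s hs1 hs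
      by_contra hcon
      exact hs1 (F4 s hs c hc0 (not_lt.1 hcon))
  have hpos : ∃ t ∈ Icc (0:ℝ) 1, 0 < f t := by
    -- a point of K off the axis
    obtain ⟨u, hu, hne0⟩ : ∃ u ∈ K, u (i₀.succAbove 0) ≠ 0 := by
      by_cases h0 : z (i₀.succAbove 0) = 0
      · refine ⟨_, hmove (i₀.succAbove 0) (ε / 2)
          (by rw [abs_of_pos (half_pos hε)]; exact half_lt_self hε), ?_⟩
        simp only [Pi.add_apply, Pi.single_eq_same, h0, zero_add]
        exact (half_pos hε).ne'
      · exact ⟨z, interior_subset hz, h0⟩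
    refine ⟨(u i₀ - a) / (b - a), ⟨div_nonneg (sub_nonneg.2 (hKa u hu)) hd.le,
      (div_le_one hd).2 (by linarith [hKb u hu])⟩, ?_⟩
    have hHt : H ((u i₀ - a) / (b - a)) = u i₀ := by
      simp only [hH]
      rw [div_mul_cancel₀ _ hd.ne']
      ring
    have h1 := F5 u hu
    have h2 : √(∑ j, u (i₀.succAbove j) ^ 2) ≤ f ((u i₀ - a) / (b - a)) := by
      apply F2
      rw [hHt]; exact h1
    refine lt_of_lt_of_le ?_ h2
    apply Real.sqrt_pos.2
    refine lt_of_lt_of_le (pow_pos (abs_pos.2 hne0) 2) ?_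
    rw [sq_abs]
    exact Finset.single_le_sum (f := fun j => u (i₀.succAbove j) ^ 2)
      (fun i _ => sq_nonneg _) (Finset.mem_univ 0)
  -- the affine map
  let L : (Fin (k + 3) ⊕ Unit → ℝ) ≃ₗ[ℝ] (Fin (k + 4) → ℝ) :=
    { toFun := fun z => i₀.insertNth ((b - a) * z (Sum.inr ())) (fun j => z (Sum.inl j))
      map_add' := by
        intro x y
        funext i
        refine Fin.succAboveCases i₀ ?_ (fun j => ?_) i
        · simp [mul_add]
        · simp
      map_smul' := by
        intro c x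
        funext i
        refine Fin.succAboveCases i₀ ?_ (fun j => ?_) i
        · simp only [Fin.insertNth_apply_same, Pi.smul_apply, smul_eq_mul, RingHom.id_apply]
          ring
        · simp
      invFun := fun u => Sum.elim (fun j => u (i₀.succAbove j)) (fun _ => u i₀ / (b - a))
      left_inv := by
        intro x
        funext i
        rcases i with j | j
        · simp
        · simp only [Sum.elim_inr, Fin.insertNth_apply_same]
          rw [mul_div_cancel_left₀ _ hd.ne']
      right_inv := by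
        intro u
        funext i
        refine Fin.succAboveCases i₀ ?_ (fun j => ?_) i
        · simp only [Fin.insertNth_apply_same, Sum.elim_inr]
          rw [mul_div_cancel₀ _ hd.ne']
        · simp }
  let A : (Fin (k + 3) ⊕ Unit → ℝ) ≃ᵃ[ℝ] (Fin (k + 4) → ℝ) :=
    L.toAffineEquiv.trans (AffineEquiv.constVAdd ℝ (Fin (k + 4) → ℝ) (Pi.single i₀ a))
  have hAi : ∀ z, A z i₀ = H (z (Sum.inr ())) := by
    intro z
    show ((Pi.single i₀ a : Fin (k + 4) → ℝ) + L z) i₀ = _
    simp only [Pi.add_apply, Pi.single_eq_same, hH]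
    show a + i₀.insertNth (α := fun _ => ℝ) ((b - a) * z (Sum.inr ())) (fun j => z (Sum.inl j)) i₀
      = _
    rw [Fin.insertNth_apply_same]
    ring
  have hAs : ∀ z j, A z (i₀.succAbove j) = z (Sum.inl j) := by
    intro z j
    show ((Pi.single i₀ a : Fin (k + 4) → ℝ) + L z) (i₀.succAbove j) = _
    rw [Pi.add_apply, Pi.single_eq_of_ne (Fin.succAbove_ne i₀ j), zero_add]
    show i₀.insertNth (α := fun _ => ℝ) ((b - a) * z (Sum.inr ())) (fun j => z (Sum.inl j))
      (i₀.succAbove j) = _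
    rw [Fin.insertNth_apply_succAbove]
  have hB := bb_body (k + 3)
  have h0B : (0 : Fin (k + 3) → ℝ) ∈ BB (k + 3) := by
    show ∑ j, (0 : Fin (k + 3) → ℝ) j ^ 2 ≤ 1
    simp
  have hcls : Cls2 (Pool.Agent.Helper82.PN.St.homSec (BB (k + 3)) f) := by
    apply Cls2.homSec (Cls2.uncond (by simp) hB) h0B _ hcont F3 hpos
    exact ⟨convex_Icc 0 1, fun x hx y hy p q hp hq hpq => hconc x hx y hy p q hp hq hpq⟩
  have hfin : A '' (Pool.Agent.Helper82.PN.St.homSec (BB (k + 3)) f) = K := by
    apply Set.Subset.antisymm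
    · rintro u ⟨w, ⟨hw1, y, hy, hwy⟩, rfl⟩
      have hy' : ∑ j, y j ^ 2 ≤ 1 := hy
      apply hrot _ (F1 _ hw1)
      · rw [qq_i, hAi]
      · rw [qq_sum, Fin.sum_univ_succAbove _ i₀, hAi]
        simp only [hAs, hwy, mul_pow]
        rw [← Finset.mul_sum]
        have := mul_le_mul_of_nonneg_left hy' (sq_nonneg (f (w (Sum.inr ()))))
        linarith
    · intro u hu
      set t : ℝ := (u i₀ - a) / (b - a) with ht
      have htm : t ∈ Icc (0:ℝ) 1 := ⟨div_nonneg (sub_nonneg.2 (hKa u hu)) hd.le,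
        (div_le_one hd).2 (by linarith [hKb u hu])⟩
      have hHt : H t = u i₀ := by
        simp only [hH, ht]
        rw [div_mul_cancel₀ _ hd.ne']
        ring
      have h2 : √(∑ j, u (i₀.succAbove j) ^ 2) ≤ f t := by
        apply F2
        rw [hHt]; exact F5 u hu
      have h3 : ∑ j, u (i₀.succAbove j) ^ 2 ≤ f t ^ 2 := by
        rw [← Real.sqrt_le_left (F3 t htm)]; exact h2
      refine ⟨Sum.elim (fun j => u (i₀.succAbove j)) (fun _ => t), ⟨htm, ?_⟩, ?_⟩
      · simp only [Sum.elim_inr, Sum.elim_inl]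
        rcases eq_or_lt_of_le (F3 t htm) with h0 | h0
        · refine ⟨0, h0B, fun i => ?_⟩
          rw [← h0] at h3
          have h4 : u (i₀.succAbove i) ^ 2 ≤ 0 := by
            refine (Finset.single_le_sum (f := fun j => u (i₀.succAbove j) ^ 2)
              (fun i _ => sq_nonneg _) (Finset.mem_univ i)).trans ?_
            simpa using h3
          have h5 : u (i₀.succAbove i) = 0 := by
            have := le_antisymm h4 (sq_nonneg _)
            exact pow_eq_zero_iff (two_ne_zero) |>.1 this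
          rw [h5]; simp
        · refine ⟨fun j => u (i₀.succAbove j) / f t, ?_, fun i => ?_⟩
          · show ∑ j, (u (i₀.succAbove j) / f t) ^ 2 ≤ 1
            simp only [div_pow]
            rw [← Finset.sum_div, div_le_one (pow_pos h0 2)]
            exact h3
          · rw [mul_div_cancel₀ _ h0.ne']
      · funext i
        refine Fin.succAboveCases i₀ ?_ (fun j => ?_) i
        · rw [hAi]; simp only [Sum.elim_inr]; exact hHt
        · rw [hAs]; simp
  rw [← hfin]
  exact Cls2.affine A hcls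

end Pool.Agent.Helper14.PN
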