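import Mathlib
import Pool.Agent.Helper82.PN.GoalsR

set_option autoImplicit false

open Set

namespace Pool.Agent.Helper14.PN

open Pool.Agent.Helper82.PN

theorem gSPLIT : SPLIT := by
  intro R hR hex
  obtain ⟨s0, hs0, hs1⟩ := hex
  set g : ℝ → ℝ := fun s => R s + R 0 * s with hg
  have h0mem : (0:ℝ) ∈ Icc (0:ℝ) 1 := ⟨le_rfl, zero_le_one⟩
  have h1mem : (1:ℝ) ∈ Icc (0:ℝ) 1 := ⟨zero_le_one, le_rfl⟩
  have hR0 : 0 ≤ R 0 := hR.nonneg 0 h0mem
  have hgc : ContinuousOn g (Icc 0 1) :=
    hR.cont.add (continuousOn_const.mul continuousOn_id)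
  have hgconc : ∀ x ∈ Icc (0:ℝ) 1, ∀ y ∈ Icc (0:ℝ) 1, ∀ p q : ℝ, 0 ≤ p → 0 ≤ q → p + q = 1 →
      p * g x + q * g y ≤ g (p * x + q * y) := by
    intro x hx y hy p q hp hq hpq
    have := hR.conc.2 hx hy hp hq hpq
    simp only [smul_eq_mul] at this
    simp only [hg]
    nlinarith [this]
  obtain ⟨α, hα, hmax⟩ := isCompact_Icc.exists_isMaxOn (nonempty_Icc.2 zero_le_one) hgc
  have hmax' : ∀ s ∈ Icc (0:ℝ) 1, g s ≤ g α := fun s hs => hmax hs
  have hgt : R 0 < g α := by
    have h1 := hmax' s0 hs0
    have h2 : g s0 = R s0 + R 0 * s0 := rfl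
    nlinarith
  have hg0 : g 0 = R 0 := by simp [hg]
  have hαpos : 0 < α := by
    rcases eq_or_lt_of_le hα.1 with h | h
    · rw [← h, hg0] at hgt
      exact absurd hgt (lt_irrefl _)
    · exact h
  -- monotone on [0, α]
  have hmono : ∀ x y : ℝ, 0 ≤ x → x ≤ y → y ≤ α → g x ≤ g y := by
    intro x y hx hxy hy
    rcases eq_or_lt_of_le (hxy.trans hy) with h | h
    · have : y = x := le_antisymm (hy.trans h.symm.le) hxy
      rw [this]
    · have hd : 0 < α - x := sub_pos.2 h
      have hc := hgconc x ⟨hx, (h.le.trans hα.2)⟩ α hα ((α - y) / (α - x)) ((y - x) / (α - x))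
        (div_nonneg (by linarith) hd.le) (div_nonneg (by linarith) hd.le)
        (by rw [← add_div]; rw [div_eq_one_iff_eq hd.ne']; ring)
      have e : (α - y) / (α - x) * x + (y - x) / (α - x) * α = y := by
        field_simp
        ring
      rw [e] at hc
      have h3 := hmax' x ⟨hx, h.le.trans hα.2⟩
      have h4 : (α - y) / (α - x) * g x + (y - x) / (α - x) * g x = g x := by
        rw [← add_mul, ← add_div]
        have : (α - y + (y - x)) / (α - x) = 1 := by
          rw [div_eq_one_iff_eq hd.ne']; ring
        rw [this, one_mul]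
      have h5 : (y - x) / (α - x) * g x ≤ (y - x) / (α - x) * g α :=
        mul_le_mul_of_nonneg_left h3 (div_nonneg (by linarith) hd.le)
      linarith
  have hanti : ∀ x y : ℝ, α ≤ x → x ≤ y → y ≤ 1 → g y ≤ g x := by
    intro x y hx hxy hy
    rcases eq_or_lt_of_le (hx.trans hxy) with h | h
    · have : y = x := le_antisymm (by linarith) hxy
      rw [this]
    · have hd : 0 < y - α := sub_pos.2 h
      have hym : y ∈ Icc (0:ℝ) 1 := ⟨by linarith, hy⟩
      have hc := hgconc α hα y hym ((y - x) / (y - α)) ((x - α) / (y - α))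
        (div_nonneg (by linarith) hd.le) (div_nonneg (by linarith) hd.le)
        (by rw [← add_div]; rw [div_eq_one_iff_eq hd.ne']; ring)
      have e : (y - x) / (y - α) * α + (x - α) / (y - α) * y = x := by
        field_simp
        ring
      rw [e] at hc
      have h3 := hmax' y hym
      have h4 : (y - x) / (y - α) * g y + (x - α) / (y - α) * g y = g y := by
        rw [← add_mul, ← add_div]
        have : (y - x + (x - α)) / (y - α) = 1 := by
          rw [div_eq_one_iff_eq hd.ne']; ring
        rw [this, one_mul]
      have h5 : (y - x) / (y - α) * g y ≤ (y - x) / (y - α) * g α :=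
        mul_le_mul_of_nonneg_left h3 (div_nonneg (by linarith) hd.le)
      linarith
  have maxmem : ∀ s ∈ Icc (0:ℝ) 1, max s α ∈ Icc (0:ℝ) 1 := fun s hs =>
    ⟨le_max_of_le_left hs.1, max_le hs.2 hα.2⟩
  have minmem : ∀ s ∈ Icc (0:ℝ) 1, min s α ∈ Icc (0:ℝ) 1 := fun s hs =>
    ⟨le_min hs.1 hα.1, min_le_of_left_le hs.2⟩
  refine ⟨min α (1/2), fun s => g (max s α) - R 0, fun s => g (min s α) - g α + R 0 * (1 - s),
    lt_min hαpos (by norm_num), lt_of_le_of_lt (min_le_right _ _) (by norm_num), ?_, ?_, ?_, ?_, ?_⟩
  · refine ⟨⟨convex_Icc 0 1, ?_⟩, ?_, ?_, ?_⟩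
    · intro x hx y hy p q hp hq hpq
      simp only [smul_eq_mul]
      have h1 := hgconc _ (maxmem x hx) _ (maxmem y hy) p q hp hq hpq
      have hle : max (p * x + q * y) α ≤ p * max x α + q * max y α := by
        apply max_le
        · exact add_le_add (mul_le_mul_of_nonneg_left (le_max_left _ _) hp)
            (mul_le_mul_of_nonneg_left (le_max_left _ _) hq)
        · calc α = p * α + q * α := by rw [← add_mul, hpq, one_mul]
            _ ≤ _ := add_le_add (mul_le_mul_of_nonneg_left (le_max_right _ _) hp)
              (mul_le_mul_of_nonneg_left (le_max_right _ _) hq)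
      have hle1 : p * max x α + q * max y α ≤ 1 := by
        calc p * max x α + q * max y α ≤ p * 1 + q * 1 :=
              add_le_add (mul_le_mul_of_nonneg_left (maxmem x hx).2 hp)
                (mul_le_mul_of_nonneg_left (maxmem y hy).2 hq)
          _ = 1 := by rw [mul_one, mul_one, hpq]
      have h2 := hanti _ _ (le_max_right _ _) hle hle1
      have h3 : p * (g (max x α) - R 0) + q * (g (max y α) - R 0)
          = p * g (max x α) + q * g (max y α) - R 0 := by
        have : p * R 0 + q * R 0 = R 0 := by rw [← add_mul, hpq, one_mul]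
        linarith
      rw [h3]
      linarith
    · intro x hx y hy hxy
      have := hanti (max x α) (max y α) (le_max_right _ _) (max_le_max_right _ hxy) (maxmem y hy).2
      show g (max y α) - R 0 ≤ g (max x α) - R 0
      linarith
    · intro s hs
      have := hanti (max s α) 1 (le_max_right _ _) (maxmem s hs).2 le_rfl
      have h1 : g 1 = R 1 + R 0 := by simp [hg]
      have h2 := hR.nonneg 1 h1mem
      show 0 ≤ g (max s α) - R 0
      linarith
    · apply ContinuousOn.sub _ continuousOn_const
      exact hgc.comp ((continuous_id.max continuous_const).continuousOn) (fun s hs => maxmem s hs)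
  · have hR1 : ∀ x ∈ Icc (0:ℝ) 1, ∀ y ∈ Icc (0:ℝ) 1, x ≤ y →
        g (min y α) - g α + R 0 * (1 - y) ≤ g (min x α) - g α + R 0 * (1 - x) := by
      intro x hx y hy hxy
      have h1 : R (min y α) ≤ R (min x α) :=
        hR.anti (minmem x hx) (minmem y hy) (min_le_min_right _ hxy)
      have h2 : x - min x α ≤ y - min y α := by
        rcases le_total x α with h | h <;> rcases le_total y α with h' | h'
        · rw [min_eq_left h, min_eq_left h']; linarith
        · rw [min_eq_left h, min_eq_right h']; linarith
        · rw [min_eq_right h, min_eq_left h']; linarith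
        · rw [min_eq_right h, min_eq_right h']; linarith
      have h3 := mul_le_mul_of_nonneg_left h2 hR0
      simp only [hg]
      nlinarith
    refine ⟨⟨convex_Icc 0 1, ?_⟩, ?_, ?_, ?_⟩
    · intro x hx y hy p q hp hq hpq
      simp only [smul_eq_mul]
      have h1 := hgconc _ (minmem x hx) _ (minmem y hy) p q hp hq hpq
      have hle : p * min x α + q * min y α ≤ min (p * x + q * y) α := by
        apply le_min
        · exact add_le_add (mul_le_mul_of_nonneg_left (min_le_left _ _) hp)
            (mul_le_mul_of_nonneg_left (min_le_left _ _) hq)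
        · calc p * min x α + q * min y α ≤ p * α + q * α :=
                add_le_add (mul_le_mul_of_nonneg_left (min_le_right _ _) hp)
                  (mul_le_mul_of_nonneg_left (min_le_right _ _) hq)
            _ = α := by rw [← add_mul, hpq, one_mul]
      have hle0 : 0 ≤ p * min x α + q * min y α :=
        add_nonneg (mul_nonneg hp (minmem x hx).1) (mul_nonneg hq (minmem y hy).1)
      have h2 := hmono _ _ hle0 hle (min_le_right _ _)
      have h3 : p * (g (min x α) - g α + R 0 * (1 - x)) + q * (g (min y α) - g α + R 0 * (1 - y))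
          = p * g (min x α) + q * g (min y α) - g α + R 0 * (1 - (p * x + q * y)) := by
        have hq' : q = 1 - p := by linarith
        subst hq'
        ring
      rw [h3]
      linarith
    · intro x hx y hy hxy
      exact hR1 x hx y hy hxy
    · intro s hs
      have := hR1 s hs 1 h1mem hs.2
      rw [min_eq_right hα.2] at this
      show 0 ≤ g (min s α) - g α + R 0 * (1 - s)
      linarith
    · apply ContinuousOn.add (ContinuousOn.sub _ continuousOn_const)
      · exact continuousOn_const.mul (continuousOn_const.sub continuousOn_id)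
      · exact hgc.comp ((continuous_id.min continuous_const).continuousOn)
          (fun s hs => minmem s hs)
  · show 0 < g (max 0 α) - R 0
    rw [max_eq_right hα.1]
    linarith
  · intro s hs
    have h1 : s ≤ α := hs.2.trans (min_le_left _ _)
    show g (max s α) - R 0 = g (max (min α (1/2)) α) - R 0
    rw [max_eq_right h1, max_eq_right (min_le_left _ _)]
  · intro s hs
    show R s = g (max s α) - R 0 + (g (min s α) - g α + R 0 * (1 - s))
    rcases le_total s α with h | h
    · rw [max_eq_right h, min_eq_left h]
      simp only [hg]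
      ring
    · rw [max_eq_left h, min_eq_right h]
      simp only [hg]
      ring

end Pool.Agent.Helper14.PN
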